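import Pool.Agent.W574.CN.Cone

set_option autoImplicit false

/-! # The monodromy conjecture for the hypersurfaces `∑ y_j f_j(x₀, x₁, x₂) = 0`

Here the `f_j` are forms of the same degree `d` in the three variables `x₀, x₁, x₂`, and the `y_j`
are further variables: `F = univ f = ∑ y_j f_j(x₀, x₁, x₂)`. The topological zeta function of `F`
is `Z_I / (s + 1)`, where `Z_I` is the topological zeta function of the ideal `I = (f_j)`. It is
computed from the ideal sheaf which `I` defines on the projective plane, by blowing up points; see
`ConeFormZeta`, `ConeZeta` (in `Pool.Agent.W574.CN.Defs`), `PlaneZeta` and `LocalZeta` (in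
`Pool.Agent.W574.SM.ZetaDefs`).

The proof:

* `functionalEq_of_univ`: a functional equation of `F` gives a functional equation of the ideal
  `(f_j)` with the same `b` (one direction of a theorem of Mustata, 2019);
* `functionalEq_deh`: a functional equation of an ideal generated by forms of the same degree gives
  one of the dehomogenized ideal, with the same `b`;
* `plane_main`: hence the poles which come from the ideals `(f_j |_{x_i = 1})` of `ℂ[u, v]` are
  roots of `b`;
* `generic_root`: `b(-3/d) = 0` if three of the forms are algebraically independent;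
* `minus_one`: `b(-1) = 0`.

By the theorem of Malgrange and Kashiwara, `exp(2 π i s₀)` is then a monodromy eigenvalue of
`F`. -/

namespace Pool.Agent.Results.MP_a2a574_ag.ConeForms

open MvPolynomial Pool.Agent.W574.CN Pool.Agent.W574.HS Pool.Agent.H628R4.TP

/-- Let `f_j` be forms of the same degree `d > 0` in three variables, not all zero, let `b` be a
polynomial which satisfies a functional equation `b(s) F ^ s = P(s) F ^ (s + 1)` (in particular the
Bernstein-Sato polynomial of `F = ∑ y_j f_j`), and let `Z` be the topological zeta function of `F`.
Then every pole `s₀` of `Z` is a root of `b`, provided that `s₀ ≠ -3/d` or that three of the `f_j`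
have a nonzero Jacobian determinant (are algebraically independent). -/
theorem result {ι : Type} [Fintype ι] (f : ι → MvPolynomial (Fin 3) ℂ) (d : ℕ) (hd : 0 < d)
    (hf : ∀ j, (f j).IsHomogeneous d) (hf0 : ∃ j, f j ≠ 0)
    (b : Polynomial ℂ) (hb : IsBFunction (univ f) b) (Z : RatFunc ℂ) (hZ : ConeFormZeta f d Z)
    (s₀ : ℂ) (hs₀ : Z.denom.eval s₀ = 0)
    (h : s₀ ≠ -3 / d ∨ ∃ e : Fin 3 → ι, (Matrix.of fun s t => pderiv s (f (e t))).det ≠ 0) :
    b.eval s₀ = 0 := by
  classical
  exact cone_form_main f d hd hf hf0 b hb Z hZ s₀ hs₀ h

end Pool.Agent.Results.MP_a2a574_ag.ConeForms
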