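import Pool.Agent.W206.MO.TopMain

/-!
# The monodromy conjecture for topological zeta functions reduces to cubics `∑ t_j q_j(x)`

If the (weak) monodromy conjecture for global topological zeta functions holds for all polynomials
`∑_j t_j q_j(x) ∈ ℂ[x, t]` with `q_j` of degree at most two, then it holds for all non-constant
polynomials over `ℂ`.

The monodromy eigenvalues of `f` are the numbers `exp(2 π i α)` with `b_f(α) = 0` (Malgrange,
Kashiwara); the topological zeta function is defined through the motivic zeta function of Denef and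
Loeser. The proof attaches to every `f` and all large `m` such a cubic `g`, obtained from `u f` by
`m` moves `F ↦ F + (y - a)(t + e)` with new variables `y`, `t`. Then
`(s + m)(s + 1)(1 - Z_g(s)) = s (s + m + 1 - Z_f(s + m))` and `b_g(s)` divides
`(s + 1) b_f(s + m)`.
-/

set_option autoImplicit false

namespace Pool.Agent.Results.MP_a2a574_ag.CubicReduction

open Pool.Agent.W428.MOT Pool.Agent.W375.MG Pool.Agent.W206.MO Pool.Agent.W206.CU
open Pool.Agent.H628R4.TP (IsBFunction IsBernsteinSatoOf)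

/-- `v` is a monodromy eigenvalue of `f`: `v = exp(2 π i α)` for a root `α` of the Bernstein-Sato
polynomial of `f` (if there is one). -/
def IsEigenvalue {n : ℕ} (f : MvPolynomial (Fin n) ℂ) (v : ℂ) : Prop :=
  ∀ b : Polynomial ℂ, IsBernsteinSatoOf f b →
    ∃ α : ℂ, b.eval α = 0 ∧ Complex.exp (2 * Real.pi * Complex.I * α) = v

/-- The monodromy conjecture for the topological zeta function `R` of `f`: for every pole `s₀`
of `R`, `exp(2 π i s₀)` is a monodromy eigenvalue of `f`. -/
def TopMC (χ : MK ℂ →+* ℤ) {n : ℕ} (f : MvPolynomial (Fin n) ℂ) : Prop :=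
  ∀ R : RatFunc ℂ, IsTop χ (zetaOrd f Set.univ) R → ∀ s₀ : ℂ, R.denom.eval s₀ = 0 →
    IsEigenvalue f (Complex.exp (2 * Real.pi * Complex.I * s₀))

theorem exp_nat (z : ℂ) (m : ℕ) : Complex.exp (2 * Real.pi * Complex.I * (z + m)) =
    Complex.exp (2 * Real.pi * Complex.I * z) := by
  rw [mul_add, Complex.exp_add, mul_comm (2 * (Real.pi : ℂ) * Complex.I) (m : ℂ),
    Complex.exp_nat_mul_two_pi_mul_I, mul_one]

theorem result (χ : MK ℂ →+* ℤ) (hχ : IsEuler χ) :
    (∀ (n : ℕ) (f : MvPolynomial (Fin n) ℂ), (∀ c : ℂ, f ≠ MvPolynomial.C c) → TopMC χ f) ↔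
    (∀ (n k : ℕ) (q : Fin k → MvPolynomial (Fin n) ℂ), (∀ j, (q j).totalDegree ≤ 2) →
      (∀ c : ℂ, cubic q ≠ MvPolynomial.C c) → TopMC χ (cubic q)) := by
  constructor
  · intro h n k q _ hq
    exact h _ _ hq
  · intro h n f hf R hR s₀ hs b hb
    have hf0 : f ≠ 0 := by
      have := hf 0
      rwa [map_zero] at this
    have hdeg : f.totalDegree ≠ 0 := fun h0 =>
      hf _ (MvPolynomial.totalDegree_eq_zero_iff_eq_C.1 h0)
    obtain ⟨n', k, m, q, R', b', hq, hne, hsm, hR', hs', hb', hdvd⟩ :=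
      exists_cubic hχ.line f hf0 hR hs hb
    obtain ⟨α, h1, h2⟩ := h n' k q hq hne R' hR' _ hs' b' hb'
    obtain ⟨c, hc⟩ := hdvd
    have h3 : Complex.exp (2 * Real.pi * Complex.I * (s₀ - m)) =
        Complex.exp (2 * Real.pi * Complex.I * s₀) := by
      rw [← exp_nat (s₀ - m) m, sub_add_cancel]
    rw [h3] at h2
    have h4 := congrArg (Polynomial.eval α) hc
    rw [Polynomial.eval_mul, Polynomial.eval_mul, h1, zero_mul, Polynomial.eval_comp,
      Polynomial.eval_add, Polynomial.eval_add, Polynomial.eval_X, Polynomial.eval_one,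
      Polynomial.eval_C] at h4
    rcases mul_eq_zero.1 h4 with h5 | h5
    · refine ⟨-1, (bs1_reduced hb.2.1 hdeg).1, ?_⟩
      rw [← h2, eq_neg_of_add_eq_zero_left h5]
    · exact ⟨α + m, h5, by rw [exp_nat, h2]⟩

end Pool.Agent.Results.MP_a2a574_ag.CubicReduction
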