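import Mathlib
import Pool.Agent.W423.NT.FinQ
import Pool.Agent.W351.NT.Root

/-!
# The monodromy conjecture for products of powers of a nondegenerate tuple of polynomials

Let `(g_0, …, g_P)`, `g_k = ∑_{g j = k} a_j x ^ (v j)`, be a tuple of polynomials in any number of
variables which is nondegenerate with respect to the Newton polytopes (a Zariski open condition on
the coefficients, nothing else is assumed on them; the singularities need not be isolated), and
let `f = ∏_k g_k ^ (m_k)`, `m_k ≥ 1` arbitrary. The polynomial `f` is neither reduced nor
nondegenerate with respect to its own Newton polytope in general. Then every pole `s0` of the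
global topological zeta function of `f` satisfies `b_f(s0 + z) = 0` for some integer `z`. By the
theorem of Malgrange and Kashiwara, `exp(2 π i s0)` is an eigenvalue of the monodromy of `f` at
some point of `{f = 0}`.

Method. (1) By Kouchnirenko's theorem for the Cayley configuration of the tuple, the modules of the
sequences `n ↦ ∏_k s_k (s_k - 1) ⋯ (s_k - μ_k + 1) x ^ c ∏_k g_k ^ (s_k - μ_k)`, `s_k = m_k n`, are
finitely generated over `ℂ[n, x_1 ∂_1, …, x_N ∂_N]`, also in a family over `ℂ⟦τ⟧` with special member
`(g_k)` and very general coefficients for the other members, where they carry a connection `∇_τ`;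
so they have no `τ`-divisible elements, and the functional equation of `f` extends to the family
for `b(s) b(s - 1) ⋯ b(s - K)`. (2) The functional equation with very general coefficients gives
the polar part of the topological zeta function.
-/

set_option autoImplicit false

namespace Pool.Agent.Results.MP_a2a574_ag.NondegenerateProducts

open Polynomial Pool.Agent.W423.MG Pool.Agent.W425.SM Pool.Agent.W423.NC Pool.Agent.W423.NX
  Pool.Agent.W423.NT

/-- **The (weak) monodromy conjecture for the global topological zeta function of
`f = ∏_k g_k ^ (m_k)`, the tuple `(g_0, …, g_P)` being nondegenerate with respect to its Newton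
polytopes.**

`NondegT g v a` says: for every linear form `w` on `ℝ ^ N` (`w = 0` included) and every nonempty set
`K` of indices the parts of the `g_k`, `k ∈ K`, at which `w` is minimal on the Newton polytopes of
the `g_k` have no common zero in `(ℂ \ 0) ^ N` at which their differentials are linearly dependent.
`IsBFunction f b` says that `b(s) f ^ s = P(s) f ^ (s + 1)` for a differential operator `P(s)` in
the Weyl algebra, polynomial in `s`; for example `b = b_f`.

`R` is any smooth fan with support the positive orthant on which, for each `k`, the ideal
generated by the monomials `x ^ (v j)`, `g j = k`, becomes principal, and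
`topZetaP False g v θ m R` is the global topological zeta function of `f`, computed on the embedded
resolution `X_R`. The heights `θ` are only used to compute the mixed volumes in the Euler
characteristics of the strata.

The number `K` depends only on the tuple (not on the `m_k` and not on `b`). First assertion:
`b(s) b(s - 1) ⋯ b(s - K) D(s) Z(s)` is a polynomial, where `D` is a product of factors
`m_k s + i`. Second assertion: if every `g_k` has an irreducible factor that does not divide the
other `g_l` (for instance if the `g_k` are not constant and pairwise relatively prime) then for every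
pole `s0` of `Z` there is an integer `z` with `b(s0 + z) = 0`. -/
theorem result {r N P : ℕ} (g : Fin r → Fin (P+1)) (v : Fin r → Fin N → ℕ) (a : Fin r → ℂ)
    (hg : ∀ k, ∃ j, g j = k) (hnd : NondegT g v a) :
    ∃ K : ℕ, ∀ m : Fin (P+1) → ℕ, (∀ k, 1 ≤ m k) → ∀ θ : Fin r → ℝ, LinearIndependent ℚ θ →
      ∀ R : SmoothFan N, PrincipalG g v R → ∀ b : ℂ[X],
      Pool.Agent.H628R4.TP.IsBFunction (∏ k, polyG g v a k ^ m k) b →
      (∃ (n : ℕ) (Z : ℂ[X]), algebraMap ℂ[X] (RatFunc ℂ)
        ((∏ i ∈ Finset.range (K + 1), b.comp (X - C (i : ℂ))) *
          (∏ k : Fin (P+1), ∏ i ∈ Finset.range n, (C ((m k : ℕ) : ℂ) * X + C (i : ℂ))) ^ 3) *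
        topZetaP False g v θ m R = algebraMap ℂ[X] (RatFunc ℂ) Z) ∧
      (OwnFactor False (polyG g v a) → ∀ s : ℂ, (topZetaP False g v θ m R).denom.eval s = 0 →
        ∃ z : ℤ, b.eval (s + z) = 0) := by
  obtain ⟨K, hK⟩ := prodND Pool.Agent.W351.NT.root g v a hg hnd
  exact ⟨K, fun m hm θ hθ R hR b hb => hK False m hm θ hθ R hR b
    ((Pool.Agent.W351.NT.fe2 (polyG g v a) m b).1 hb)⟩

end Pool.Agent.Results.MP_a2a574_ag.NondegenerateProducts
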